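import Pool.Agent.Y825.PS.Prod
import Pool.Agent.Y825.PS.Grp
import Pool.Agent.Y825.PS.Flex

set_option autoImplicit false

/-! Countable amenable LERF groups of class two, one for every exponent, all of whose products with
other groups fail to be (even flexibly) stable in permutations. -/

namespace Pool.Agent.Results.MP_7bd500_al.AbsorbsEveryGroup

open Filter Topology Pool.Agent.H698R3 Pool.Agent.H698R3.Stab Pool.Agent.Y825.PS

lemma nsmul_zero {m : ℕ} {V : Type} [AddCommGroup V] [Module (ZMod m) V] (k : ℕ) (h : m ∣ k)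
    (v : V) : k • v = 0 := by
  rw [← Nat.cast_smul_eq_nsmul (ZMod m), (ZMod.natCast_eq_zero_iff k m).mpr h, zero_smul]

lemma pow_one_of {m : ℕ} (k : ℕ) (h1 : m ∣ k) (h2 : m ∣ k.choose 2) (x : GG (ZMod m)) :
    x ^ k = 1 := by
  rw [ce_pow, CE.one_def, nsmul_zero k h1, nsmul_zero k h1, nsmul_zero _ h2, add_zero]

lemma not_flex_prod {R : Type} [CommRing R] [Finite R] [Nontrivial R] (H : Type) [Group H] :
    ¬ FlexStable (GG R × H) := by
  rintro ⟨S, _, π, hπ, hst⟩
  refine not_flex_of_witness (G := GG R × H) (zz R, 1) (cc R, 1) ?_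
    (fun n => CE (bE (R := R) n)) (fun n g => tau n g.1) ?_ ?_ ?_ π hπ hst
  · intro Q _ _ ρ
    obtain ⟨v, hv⟩ := cc_finite Q (ρ.comp (MonoidHom.inl (GG R) H))
    refine ⟨(v, 1), ?_⟩
    have e : ((zz R, 1) : GG R × H)⁻¹ * (v, 1)⁻¹ * (zz R, 1) * (v, 1) =
        MonoidHom.inl (GG R) H ((zz R)⁻¹ * v⁻¹ * zz R * v) := by
      ext <;> simp
    rw [e]
    exact hv
  · intro g h
    exact tau_mul g.1 h.1
  · refine Filter.Eventually.of_forall (fun n => ?_)
    rfl
  · refine Filter.Eventually.of_forall (fun n h => ?_)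
    have h1 : (1 : R) = 0 := congrArg CE.z h
    exact one_ne_zero h1

lemma not_flex {R : Type} [CommRing R] [Finite R] [Nontrivial R] : ¬ FlexStable (GG R) := by
  rintro ⟨S, _, π, hπ, hst⟩
  refine not_flex_of_witness (zz R) (cc R) cc_finite (fun n => CE (bE (R := R) n)) tau tau_mul
    ?_ ?_ π hπ hst
  · refine Filter.Eventually.of_forall (fun n => ?_)
    rfl
  · refine Filter.Eventually.of_forall (fun n h => ?_)
    have h1 : (1 : R) = 0 := congrArg CE.z h
    exact one_ne_zero h1

/-- For every `m ≥ 2` there is a countable, locally finite group `G`, nilpotent of class two and of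
exponent dividing `2 m` (dividing `m` for odd `m`), which is amenable and LERF but not flexibly
stable in permutations; moreover `G × H` is not flexibly stable, so not permutation stable, for
every group `H` whatsoever, and it is amenable and LERF whenever `H` is. -/
theorem result (m : ℕ) (hm : 2 ≤ m) :
    ∃ (G : Type) (_ : Group G), Countable G ∧
      (∀ K : Subgroup G, K.FG → Finite K) ∧
      (∀ x y : G, x * y * x⁻¹ * y⁻¹ ∈ Subgroup.center G) ∧
      (∀ x : G, x ^ (2 * m) = 1) ∧ (Odd m → ∀ x : G, x ^ m = 1) ∧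
      Amenable G ∧ LERF G ∧ ¬ PermStable G ∧ ¬ FlexStable G ∧
      ∀ (H : Type) [Group H], ¬ PermStable (G × H) ∧ ¬ FlexStable (G × H) ∧
        (Amenable H → LERF H → Amenable (G × H) ∧ LERF (G × H)) := by
  have hne : NeZero m := ⟨by omega⟩
  have hfact : Fact (1 < m) := ⟨by omega⟩
  have hnt : Nontrivial (ZMod m) := ZMod.nontrivial m
  have hQ : ∀ n, ∃ (Q : Type) (_ : Group Q) (_ : Finite Q) (ρ : GG (ZMod m) →* Q),
      ∀ g ∈ Gsub (R := ZMod m) n, ρ g = 1 → g = 1 :=
    fun n => ⟨CE (bF (R := ZMod m) n), inferInstance, inferInstance, rho n, rho_inj n⟩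
  have hf : ∀ n, Finite (Gsub (R := ZMod m) n) := fun n => Gsub_fin n
  refine ⟨GG (ZMod m), inferInstance, inferInstance,
    locFin_of_exhaustion Gsub Gsub_mono Gsub_exhaust hf, ce_comm_mem _, ?_, ?_,
    amenable_of_exhaustion Gsub Gsub_mono Gsub_exhaust hf,
    lerf_of_exhaustion Gsub Gsub_mono Gsub_exhaust hQ, not_stable, not_flex, ?_⟩
  · refine pow_one_of (2 * m) ⟨2, by ring⟩ ⟨2 * m - 1, ?_⟩
    rw [Nat.choose_two_right]
    have e : 2 * m * (2 * m - 1) = 2 * (m * (2 * m - 1)) := by ring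
    rw [e, Nat.mul_div_cancel_left _ (by norm_num)]
  · rintro ⟨t, ht⟩
    refine pow_one_of m (dvd_refl m) ⟨t, ?_⟩
    rw [Nat.choose_two_right]
    have e : m * (m - 1) = 2 * (m * t) := by
      have : m - 1 = 2 * t := by omega
      rw [this]; ring
    rw [e, Nat.mul_div_cancel_left _ (by norm_num)]
  · intro H _
    exact ⟨not_stable_prod H, not_flex_prod H, fun h1 h2 =>
      ⟨amenable_prod Gsub Gsub_mono Gsub_exhaust hf h1,
        lerf_prod Gsub Gsub_mono Gsub_exhaust hQ h2⟩⟩

end Pool.Agent.Results.MP_7bd500_al.AbsorbsEveryGroup
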